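import Pool.Agent.U722.FF.Stm4

set_option autoImplicit false
set_option linter.unusedSectionVars false

/-! Package MFRES of Project LB: free resolutions by matrices. -/

namespace Pool.Agent.U59.LBP

open U722.FF Matrix

section tr

variable {R : Type} [Ring R] {a b c : Type} [Fintype a] [Fintype b] [Fintype c]

theorem vm {r s : ℕ} (ea : a ≃ Fin r) (eb : b ≃ Fin s) (A : Matrix a b R) (v : Fin r → R) :
    v ᵥ* A.submatrix ea.symm eb.symm = ((v ∘ ea) ᵥ* A) ∘ eb.symm := by
  rw [Matrix.submatrix_vecMul_equiv]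
  rfl

theorem t1 {r s : ℕ} (ea : a ≃ Fin r) (ec : c ≃ Fin s) (B : Matrix c a R) (v : Fin r → R) :
    (∃ w : Fin s → R, w ᵥ* B.submatrix ec.symm ea.symm = v) ↔ ∃ w : c → R, w ᵥ* B = v ∘ ea := by
  constructor
  · rintro ⟨w, hw⟩
    refine ⟨w ∘ ec, ?_⟩
    rw [vm] at hw
    rw [← hw]
    funext x
    simp
  · rintro ⟨w, hw⟩
    refine ⟨w ∘ ec.symm, ?_⟩
    rw [vm]
    have h1 : (w ∘ ec.symm) ∘ ec = w := by
      funext x
      simp
    rw [h1, hw]
    funext x
    simp

theorem t2 {r s : ℕ} (ea : a ≃ Fin r) (eb : b ≃ Fin s) (A : Matrix a b R) (v : Fin r → R) :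
    v ᵥ* A.submatrix ea.symm eb.symm = 0 ↔ (v ∘ ea) ᵥ* A = 0 := by
  rw [vm]
  constructor
  · intro h
    funext x
    have := congrFun h (eb x)
    simpa using this
  · intro h
    rw [h]
    rfl

end tr

theorem t_MFRES : U722.FF.S_MFRES := by
  intro G U _ _ c k h
  obtain ⟨N, ι, hfin, d, ε, hE, hs, h0, h1, hU0, hU1⟩ := h
  let e : ∀ n, ι n ≃ Fin (Fintype.card (ι n)) := fun n => Fintype.equivFin (ι n)
  let φ : PM G PUnit.{1} →+ ℤ :=
    { toFun := fun m => (show PUnit.{1} →₀ ℤ from m) PUnit.unit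
      map_zero' := rfl
      map_add' := fun _ _ => rfl }
  have hφ : ∀ m : PM G PUnit.{1}, φ m = 0 ↔ m = 0 := by
    intro m
    constructor
    · intro h
      exact Finsupp.ext (f := (show PUnit.{1} →₀ ℤ from m)) (g := 0) fun x => by
        cases x
        exact h
    · intro h
      rw [h]
      exact map_zero φ
  have hφs : Function.Surjective φ := fun z => ⟨(Finsupp.single PUnit.unit z : PUnit.{1} →₀ ℤ), by
    change (Finsupp.single PUnit.unit z : PUnit.{1} →₀ ℤ) PUnit.unit = z
    simp⟩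
  have hφg : ∀ (g : G) (m : PM G PUnit.{1}), φ (MonoidAlgebra.single g (1 : ℤ) • m) = φ m := by
    intro g m
    have h2 := of_smul (X := PUnit.{1}) g m
    rw [MonoidAlgebra.of_apply] at h2
    rw [h2]
    change Finsupp.mapDomain (fun x : PUnit.{1} => g • x) (show PUnit.{1} →₀ ℤ from m) PUnit.unit =
      (show PUnit.{1} →₀ ℤ from m) PUnit.unit
    have h3 : (fun x : PUnit.{1} => g • x) = id := by
      funext x
      exact Subsingleton.elim _ _
    rw [h3, Finsupp.mapDomain_id]
  let ε' : (Fin (Fintype.card (ι 0)) → MonoidAlgebra ℤ G) →+ ℤ :=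
    φ.comp ((ε.toAddMonoidHom).comp
      { toFun := fun v => v ∘ e 0
        map_zero' := rfl
        map_add' := fun _ _ => rfl })
  have hε' : ∀ v, ε' v = φ (ε (v ∘ e 0)) := fun v => rfl
  let C : V7N.FreeRes G :=
    { r := fun n => Fintype.card (ι n)
      d := fun n => (d n).submatrix (e (n + 1)).symm (e n).symm
      ε := ε'
      ε_smul := by
        intro g v
        rw [hε', hε']
        have h2 : (fun i => MonoidAlgebra.single g (1 : ℤ) * v i) ∘ e 0 =
            MonoidAlgebra.single g (1 : ℤ) • (v ∘ e 0) := by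
          funext x
          rfl
        rw [h2, map_smul, hφg]
      ε_surj := by
        intro z
        obtain ⟨m, hm⟩ := hφs z
        obtain ⟨v, hv⟩ := hs m
        refine ⟨v ∘ (e 0).symm, ?_⟩
        rw [hε']
        have h2 : (v ∘ (e 0).symm) ∘ e 0 = v := by
          funext x
          simp
        rw [h2, hv, hm]
      exact_zero := by
        intro v
        rw [hε', hφ, h0, ← t1 (e 0) (e 1) (d 0) v]
        constructor
        · rintro ⟨w, hw⟩
          exact ⟨w, hw.symm⟩
        · rintro ⟨w, hw⟩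
          exact ⟨w, hw.symm⟩
      exact_succ := by
        intro n v
        rw [t2 (e (n + 1)) (e n) (d n) v, h1, ← t1 (e (n + 1)) (e (n + 2)) (d (n + 1)) v]
        constructor
        · rintro ⟨w, hw⟩
          exact ⟨w, hw.symm⟩
        · rintro ⟨w, hw⟩
          exact ⟨w, hw.symm⟩ }
  refine ⟨C, ⟨N, fun n hn => ?_⟩, fun hk v => ?_, fun n hn v hv => ?_⟩
  · have := hE n hn
    exact Fintype.card_eq_zero
  · have h2 := hU0 hk (v ∘ e 0)
    rw [← t1 (e 0) (e 1) ((d 0).map (V7N.evM c)) v] at h2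
    exact h2
  · have h3 := (t2 (e (n + 1)) (e n) ((d n).map (V7N.evM c)) v).1 hv
    have h2 := hU1 n hn (v ∘ e (n + 1)) h3
    rw [← t1 (e (n + 1)) (e (n + 2)) ((d (n + 1)).map (V7N.evM c)) v] at h2
    exact h2

end Pool.Agent.U59.LBP
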